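import Pool.Agent.J4H5.RZ.Stm

/-!
# Project RZ, second form: at least `R / (log R)^14` real zeros of `H_t`, `t < 0`

The same proof, with powers of the logarithm instead of `T^ε`: only the pieces FOUR, R2, ABS, FIN change. `∑_{m ≤ X} d(m)²/m ≤ (1 + log X)^4` is
`Pool.Agent.H316R2.LS` (`tau_sq_sum_le`), see also `Pool.Agent.W93.LV2` (`tau_sq`).
-/

set_option autoImplicit false

namespace Pool.Agent.J4H5.RZ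

open Complex MeasureTheory Filter Topology Set
open Pool.Agent.J4H4.NG

noncomputable section

/-- (MVI) mean value theorem for infinite series, trivial estimate off the diagonal: `|∫ (n/m)^{iv}| ≤ 2/|log (n/m)| ≤ 2 max (n, m)/|n - m|`; pairs with
`n < m ≤ 2n`: `2 |b_n b_m| ≤ |b_n|² + |b_m|²`; pairs with `m > 2n`: `(∑ |b_n|)²` -/
def S_MVI : Prop := ∃ C : ℝ, 0 < C ∧ ∀ (b : ℕ → ℂ) (V T : ℝ), 0 ≤ T → Summable (fun n => ‖b n‖) →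
  Summable (fun n : ℕ => ‖b n‖ ^ 2 * (((n : ℝ) + 1) * (1 + Real.log ((n : ℝ) + 1)))) →
  ∫ v in V..(V + T), ‖DS b v‖ ^ 2 ≤
    C * (∑' n : ℕ, ‖b n‖ ^ 2 * (T + ((n : ℝ) + 1) * (1 + Real.log ((n : ℝ) + 1))) + (∑' n : ℕ, ‖b n‖) ^ 2)

/-- coefficients of the square: `d(m) m^(-2) e^{-a (log m - 2 lam)²}`, with `n + 1` for `m` -/
def bb (a lam : ℝ) (n : ℕ) : ℝ := ((n + 1).divisors.card : ℝ) * amp a (2 * lam) (n + 1)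

/-- (DV) the divisor function: `m^(-3) e^{-2a x²} ≤ C e^{-6 lam} e^{-2|x|}`, `x = log m - 2 lam`; `tau_sq_sum_le` for `m ≤ e^{4 lam}`, `d(m)² ≤ 4m` beyond -/
def S_DV : Prop := ∀ a C₀ : ℝ, 0 < a → 0 < C₀ → ∃ C T₀ : ℝ, 0 < C ∧ 3 ≤ T₀ ∧ ∀ T lam : ℝ, T₀ ≤ T → |lam - Real.log T / 2| ≤ C₀ →
  Summable (fun n : ℕ => (bb a lam n) ^ 2 * (T + ((n : ℝ) + 1) * (1 + Real.log ((n : ℝ) + 1)))) ∧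
  ∑' n : ℕ, (bb a lam n) ^ 2 * (T + ((n : ℝ) + 1) * (1 + Real.log ((n : ℝ) + 1))) ≤ C * (Real.log T) ^ 5 * T ^ (-(2 : ℝ))

/-- (FOURL) fourth moment: `(DS c)² = DS b`, `b_m = ∑_{kl = m} c_k c_l`, `‖b_m‖ ≤ d(m) m^(-2) e^{-(a/2) (log m - 2 lam)²}` because
`(log k - lam)² + (log l - lam)² ≥ (log m - 2 lam)²/2`; `∑ ‖b_m‖ ≤ (∑ ‖c_n‖)² ≤ C e^{-2 lam}` (first sums of SUM) -/
def S_FOURL : Prop := ∀ a C₀ : ℝ, 0 < a → 0 < C₀ → ∃ C T₀ : ℝ, 0 < C ∧ 3 ≤ T₀ ∧ ∀ T lam : ℝ, T₀ ≤ T → |lam - Real.log T / 2| ≤ C₀ →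
  ∀ c : ℕ → ℂ, Maj a lam c → ∫ v in T..(3 * T), ‖DS c v‖ ^ 4 ≤ C * (Real.log T) ^ 5 * T ^ (-(2 : ℝ))

def S_FOURL' : Prop := S_SUM → S_MVI → S_DV → S_FOURL

/-- (R2L) as (R2) -/
def S_R2L : Prop := ∀ a : ℝ, 0 < a → ∃ C T₀ : ℝ, 0 < C ∧ 3 ≤ T₀ ∧ ∀ T : ℝ, T₀ ≤ T →
  ∫ v in T..(3 * T), (RR a v) ^ 4 ≤ C * (Real.log T) ^ 5 * T ^ (-(2 : ℝ))

def S_R2L' : Prop := S_SUM → S_FOURL → S_RE → S_R2L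

/-- (ABSL) as (ABS), `h = (log T)^6`: `∫_T^{2T} |R| ≥ c' T^(1/4) (log T)^(-5/2)`, `∫_T^{2T} |A| ≤ C' (log T)^3 T^(1/4)`, `∫_T^{2T} B² ≤ h² ∫_T^{3T} R² ≤
C' h² (log T)^(5/2) T^(-1/2)`; the set `{|A| < B}` has measure `≥ c'' T (log T)^(-15/2)` -/
def S_ABSL : Prop := ∀ c C : ℝ, 0 < c → 0 < C → ∃ T₀ : ℝ, 3 ≤ T₀ ∧ ∀ (T : ℝ) (R : ℝ → ℝ), T₀ ≤ T →
  ContinuousOn R (Set.Icc T (3 * T)) → c * T ^ (-(1 / 2 : ℝ)) ≤ ∫ v in T..(2 * T), (R v) ^ 2 →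
  ∫ v in T..(3 * T), (R v) ^ 4 ≤ C * (Real.log T) ^ 5 * T ^ (-(2 : ℝ)) →
  ∫ v in T..(2 * T), (∫ u in v..(v + (Real.log T) ^ 6), R u) ^ 2 ≤ C * (Real.log T) ^ 6 * T ^ (-(1 / 2 : ℝ)) →
  ∃ S : Finset ℝ, (∀ x ∈ S, T ≤ x ∧ x ≤ 3 * T ∧ R x = 0) ∧ T / (Real.log T) ^ 14 ≤ (S.card : ℝ)

/-- (RZL) the result -/
def S_RZL : Prop := ∀ b : ℝ, 0 < b → ∃ R₀ : ℝ, 3 ≤ R₀ ∧ ∀ R : ℝ, R₀ ≤ R → ∃ S : Finset ℝ,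
  (∀ x ∈ S, 0 ≤ x ∧ x ≤ R ∧ J4H2.DN.Hd (-b) x = 0) ∧ R / (Real.log R) ^ 15 ≤ (S.card : ℝ)

/-- (FINL) `a = b/4`, `x = 2v`, `T = R/6` -/
def S_FINL : Prop := S_REP → S_RE → S_R1 → S_R2L → S_R3 → S_ABSL → S_RZL

end

end Pool.Agent.J4H5.RZ
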