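import Pool.Agent.J4H1.NG.Rep
import Pool.Agent.J4H19.NG.Repr
import Pool.Agent.J4H3.NG.Loc
import Pool.Agent.J4H31.NG.Sh
import Pool.Agent.J4H17.RZ.Dif
import Pool.Agent.J4H17.RZ.Msq
import Pool.Agent.J4H45.RZ.Mvi
import Pool.Agent.J4H55.RZ.R1
import Pool.Agent.J4H55.RZ.Absl
import Pool.Agent.J4H31.RZ.R3b
import Pool.Agent.J4H85.RZ.Sum
import Pool.Agent.J4H87.RZ.Re
import Pool.Agent.J4H89.RZ.Fourl
import Pool.Agent.J4H46.RZ.Sti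
import Pool.Agent.J4H23.RZ.Dv
import Pool.Agent.J4H23.RZ.Finl
import Pool.Agent.J4H97.RZ.R2L

/-!
# Project RZ, assembly: for every `t < 0` the function `H_t` has at least `R / (log R)^15` real zeros in `[0, R]`
-/

set_option autoImplicit false

namespace Pool.Agent.J4H5.RZ

open Pool.Agent.J4H4.NG

theorem t_REPR0 : S_REPR := Pool.Agent.J4H19.NG.t_REPR Pool.Agent.J4H31.NG.t_SH Pool.Agent.J4H3.NG.t_LOC

theorem t_REP0 : S_REP := Pool.Agent.J4H1.NG.t_REP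

theorem t_SUM0 : S_SUM := Pool.Agent.J4H85.RZ.t_SUM

theorem t_MSQ0 : S_MSQ := Pool.Agent.J4H17.RZ.t_MSQ t_SUM0

theorem t_DIF0 : S_DIF := Pool.Agent.J4H17.RZ.Dif.t_DIF t_SUM0

theorem t_RE0 : S_RE := Pool.Agent.J4H87.RZ.t_RE t_REP0 t_REPR0

theorem t_R10 : S_R1 := Pool.Agent.J4H55.RZ.t_R1 t_SUM0 t_MSQ0 t_DIF0 t_RE0

theorem t_FOURL0 : S_FOURL := Pool.Agent.J4H89.RZ.t_FOURL t_SUM0 Pool.Agent.J4H45.RZ.t_MVI Pool.Agent.J4H23.RZ.t_DV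

theorem t_R2L0 : S_R2L := Pool.Agent.J4H97.RZ.t_R2L t_SUM0 t_FOURL0 t_RE0

theorem t_R30 : S_R3 := Pool.Agent.J4H31.RZ.t_R3 t_SUM0 t_MSQ0 t_DIF0 Pool.Agent.J4H46.RZ.t_STI t_RE0

/-- for every `b > 0` and all large `R`: at least `R / (log R)^15` real zeros of `H_{-b}` in `[0, R]` -/
theorem t_RZL : S_RZL :=
  Pool.Agent.J4H23.RZ.t_FINL t_REP0 t_RE0 t_R10 t_R2L0 t_R30 Pool.Agent.J4H55.RZ.t_ABSL

end Pool.Agent.J4H5.RZ
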