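import Pool.Agent.J4H4.NG.Stm

/-!
# Project RZ: the real zeros of `H_t` for negative times, statements

TARGET (`S_RZ`): for every `b > 0` and `ε > 0` and all large `R` the function `H_{-b}` has at least `R^(1-ε)` real zeros in `[0, R]`
(by NG / EQ they have density `0` among all zeros).

IDEA. `EE a (iv)` is real for real `v` (`H_{-b}(2v) = EE (b/4) (iv) / 8` up to sign of `v`). Let `R(v) = EE a (iv) / |gam (2 + iv)|`. By `S_REPR` with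
`η = -3/2`: `R(v) = e^{9/16a} P(v) DD a λ(v) v + O(1/v)`, `P = gam/|gam|`, `λ(v) = log (v/2π)/2 + 3/(4a)`: a Dirichlet polynomial of length about
`√v` with smooth coefficients, rotated by the phase `P`. Mean square on `[T, 2T]`: `≍ T^(-3/2)`; fourth moment `≤ T^(-3+ε)` (square, mean value
theorem for length `T^(1+ε)`, divisor bound); mean square of `∫_v^{v+h} R`: `≤ C h T^(-3/2)` (the frequencies `L(v) - log n` near `0` have density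
`O(1)`). So `∫_v^{v+h} |R|` is larger than `|∫_v^{v+h} R|`, `h = T^(2ε)`, for many `v`: a zero in `[v, v + h]`.
-/

set_option autoImplicit false

namespace Pool.Agent.J4H5.RZ

open Complex MeasureTheory Filter Topology Set
open Pool.Agent.J4H4.NG

noncomputable section

/-- a Dirichlet series on a vertical line (`n + 1` for `n`) -/
def DS (c : ℕ → ℂ) (v : ℝ) : ℂ := ∑' n : ℕ, c n * ((n : ℂ) + 1) ^ (-(I * v))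

/-- coefficients of the size `n^(-2) e^{-a (log n - lam)²}` -/
def Maj (a lam : ℝ) (c : ℕ → ℂ) : Prop := ∀ n : ℕ, ‖c n‖ ≤ amp a lam (n + 1)

/-- `L(v)` and `λ(v)` -/
def LL (v : ℝ) : ℝ := Real.log (v / (2 * Real.pi)) / 2

def lamv (a v : ℝ) : ℝ := LL v + 3 / (4 * a)

/-- `∫_0^h e^{iux} du` -/
def KK (h x : ℝ) : ℂ := ∫ u in (0 : ℝ)..h, cexp (I * (u * x : ℝ))

/-- the real function `EE a (iv) / |gam (2 + iv)|` -/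
def RR (a v : ℝ) : ℝ := (EE a (I * v)).re / ‖gam (2 + I * v)‖

/-! ## Sums -/

/-- (SUM) sums of the amplitudes, comparison with `∫ e^{-k y} e^{-a (y - lam)²} dy`; the last one: `‖KK h x‖ ≤ h` and `≤ 2/|x|`, about `4 e^L / h`
integers with `|log n - L| < 2/h` -/
def S_SUM : Prop := ∀ a C₀ : ℝ, 0 < a → 0 < C₀ → ∃ c C : ℝ, 0 < c ∧ 0 < C ∧ ∀ lam : ℝ, 1 ≤ lam →
  Summable (fun n : ℕ => amp a lam (n + 1)) ∧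
  (∑' n : ℕ, amp a lam (n + 1) ≤ C * Real.exp (-lam)) ∧
  (∑' n : ℕ, amp a lam (n + 1) * (1 + |Real.log ((n : ℝ) + 1) - lam|) ≤ C * Real.exp (-lam)) ∧
  (∑' n : ℕ, ((n : ℝ) + 1) * (1 + Real.log ((n : ℝ) + 1)) * (amp a lam (n + 1)) ^ 2 ≤ C * (1 + lam) * Real.exp (-(2 * lam))) ∧
  (c * Real.exp (-(3 * lam)) ≤ ∑' n : ℕ, (amp a lam (n + 1)) ^ 2) ∧
  (∑' n : ℕ, (amp a lam (n + 1)) ^ 2 ≤ C * Real.exp (-(3 * lam))) ∧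
  ∀ L h : ℝ, |L - lam| ≤ C₀ → 1 ≤ h → h ≤ Real.exp lam →
    ∑' n : ℕ, (amp a lam (n + 1)) ^ 2 * ‖KK h (L - Real.log ((n : ℝ) + 1))‖ ^ 2 ≤ C * h * Real.exp (-(3 * lam))

/-- (MSQ) from `S_SUM`: `|∫_V^{V+H} (n/m)^{iv} dv| ≤ 2/|log (n/m)| ≤ 2 max (n, m)/|n - m|`; pairs with `n < m ≤ 2n`: `2 |c_n c_m| ≤ |c_n|² + |c_m|²`, fourth
sum of (SUM); pairs with `m > 2n`: the square of the first sum -/
def S_MSQ : Prop := ∀ a : ℝ, 0 < a → ∃ C : ℝ, 0 < C ∧ ∀ lam : ℝ, 1 ≤ lam → ∀ c : ℕ → ℂ, Maj a lam c → ∀ V H : ℝ, 0 ≤ H →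
  |(∫ v in V..(V + H), ‖DS c v‖ ^ 2) - H * ∑' n : ℕ, ‖c n‖ ^ 2| ≤ C * (1 + lam) * Real.exp (-(2 * lam))

/-- (MV) mean value theorem with the trivial estimate of the terms off the diagonal -/
def S_MV : Prop := ∃ C : ℝ, 0 < C ∧ ∀ (M : ℕ) (c : ℕ → ℂ) (V T : ℝ), 1 ≤ T →
  ∫ v in V..(V + T), ‖∑ m ∈ Finset.Icc 1 M, c m * (m : ℂ) ^ (-(I * v))‖ ^ 2 ≤
    C * (T + M * Real.log (M + 1)) * ∑ m ∈ Finset.Icc 1 M, ‖c m‖ ^ 2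

/-- (FOUR) fourth moment, from `S_MV`: the terms `n > T^(1/2+ε')` are smaller than any power of `T`; the square of the rest has length `T^(1+2ε')` and
coefficients `≤ d(m) m^(-2) e^{-a (log m - 2 lam)²/2}`; `d(m) ≤ C m^{ε'}`; `∑_{m ≤ M} m^(-4) e^{-a (log m - 2 lam)²} ≤ C e^{-6 lam}` -/
def S_FOUR : Prop := ∀ a ε C₀ : ℝ, 0 < a → 0 < ε → 0 < C₀ → ∃ T₀ : ℝ, 2 ≤ T₀ ∧ ∀ T lam : ℝ, T₀ ≤ T → |lam - Real.log T / 2| ≤ C₀ →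
  ∀ c : ℕ → ℂ, Maj a lam c → ∫ v in T..(3 * T), ‖DS c v‖ ^ 4 ≤ T ^ (ε - 2)

/-! ## Analysis -/

/-- (STI) Stirling for the quotient (as `S_LOC`, but with a relative error): `(log gam)'(2 + iv) = ell v + O(1/v)`, integrate -/
def S_STI : Prop := ∃ C V₀ : ℝ, 0 < C ∧ 1 ≤ V₀ ∧ ∀ v : ℝ, V₀ ≤ v → gam (2 + I * v) ≠ 0 ∧ ∀ u : ℝ, 0 ≤ u → u ^ 2 ≤ v →
  ‖gam (2 + I * ((v + u : ℝ) : ℂ)) / gam (2 + I * v) * cexp (-(I * u * ell v)) - 1‖ ≤ C * (1 + u ^ 2) / v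

/-- (DIF) from `S_SUM` (third sum): `DD` and its dependence on `lam` -/
def S_DIF : Prop := ∀ a : ℝ, 0 < a → ∃ C : ℝ, 0 < C ∧ ∀ lam lam' v : ℝ, 1 ≤ lam → 1 ≤ lam' → |lam - lam'| ≤ 1 →
  ‖DD a lam v‖ ≤ C * Real.exp (-lam) ∧ ‖DD a lam v - DD a lam' v‖ ≤ C * |lam - lam'| * Real.exp (-lam)

/-- (RE) `EE a (iv)` is real (`S_REP`) and equal to the Dirichlet series (`S_REPR` with `η = -3/2`); `RR a` is continuous on `[V₀, ∞)` -/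
def S_RE : Prop := ∀ a : ℝ, 0 < a → ∃ C V₀ : ℝ, 0 < C ∧ 1 ≤ V₀ ∧ ContinuousOn (RR a) (Set.Ici V₀) ∧
  (∀ v : ℝ, V₀ ≤ v → RR a v = 0 → EE a (I * v) = 0) ∧
  ∀ v : ℝ, V₀ ≤ v → ‖((RR a v : ℝ) : ℂ) - (gam (2 + I * v) / ((‖gam (2 + I * v)‖ : ℝ) : ℂ)) * ((Real.exp (9 / (16 * a)) : ℝ) : ℂ) *
    DD a (lamv a v) v‖ ≤ C / v

def S_RE' : Prop := S_REP → S_REPR → S_RE

/-- (R1) mean square from below. On `[V, V + H]`, `H` about `T^(2/3)`, replace `lamv a v` by `lamv a V` (`S_DIF`: error `C V^(-1/3) e^{-lam}`, whose square is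
`C V^(-5/3)`), then (MSQ), (SUM); sum over the intervals -/
def S_R1 : Prop := ∀ a : ℝ, 0 < a → ∃ c T₀ : ℝ, 0 < c ∧ 2 ≤ T₀ ∧ ∀ T : ℝ, T₀ ≤ T →
  c * T ^ (-(1 / 2 : ℝ)) ≤ ∫ v in T..(2 * T), (RR a v) ^ 2

def S_R1' : Prop := S_SUM → S_MSQ → S_DIF → S_RE → S_R1

/-- (R2) fourth moment. `|f(lam)|⁴ ≤ 8 |f(lam₀)|⁴ + 8 ∫_{lam₀}^{lam₀+1} |f'|⁴`, `f(lam) = DD a lam v`, `lam₀ = lamv a T`; `f` and `f'` are multiples (depending on `a`)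
of series `DS c`, `Maj (a/2) lam c`; (FOUR) -/
def S_R2 : Prop := ∀ a ε : ℝ, 0 < a → 0 < ε → ∃ T₀ : ℝ, 2 ≤ T₀ ∧ ∀ T : ℝ, T₀ ≤ T → ∫ v in T..(3 * T), (RR a v) ^ 4 ≤ T ^ (ε - 2)

def S_R2' : Prop := S_SUM → S_FOUR → S_RE → S_R2

/-- (R3) windows. On `[V, V + H]`, `H` about `T^(2/3)`: `RR a (v + u) = e^{9/16a} P(v) e^{iu LL V} DD a (lamv a V) (v + u) + O(h² V^(-1/3) e^{-lam} + 1/V)` (`S_STI`, `S_DIF`,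
`|LL (v+u) - LL V| ≤ V^(-1/3)`), so the window is `e^{9/16a} P(v) ∑ c_n KK h (LL V - log n) n^(-iv) + O(h³ V^(-1/3) e^{-lam} + h/V)`; (MSQ) for the coefficients
divided by `h e^{aπ²/16}`, (SUM) -/
def S_R3 : Prop := ∀ a : ℝ, 0 < a → ∃ C T₀ : ℝ, 0 < C ∧ 2 ≤ T₀ ∧ ∀ T h : ℝ, T₀ ≤ T → 1 ≤ h → h ≤ T ^ (1 / 50 : ℝ) →
  ∫ v in T..(2 * T), (∫ u in v..(v + h), RR a u) ^ 2 ≤ C * h * T ^ (-(1 / 2 : ℝ))

def S_R3' : Prop := S_SUM → S_MSQ → S_DIF → S_STI → S_RE → S_R3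

/-! ## Zeros -/

/-- (ABS) abstract lemma. `B(v) = ∫_v^{v+h} |R|`, `A(v) = ∫_v^{v+h} R`. Hölder: `∫_T^{2T} |R| ≥ (∫ R²)^{3/2} / (∫ R⁴)^{1/2}`, so `∫_T^{2T} B ≥ c' h T^(1/4 - ε/2)`, and
`∫_T^{2T} |A| ≤ C' h^{1/2} T^{1/4}`. So `∫ (B - |A|)⁺ ≥ c'' h T^(1/4 - ε/2)`; by Cauchy-Schwarz the set `{|A| < B}` has measure `≥ c''' T^(1 - 3ε/2)`; in each
window `[v, v + h]` with `v` in it there is a zero -/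
def S_ABS : Prop := ∀ ε c C : ℝ, 0 < ε → ε ≤ 1 / 100 → 0 < c → 0 < C → ∃ T₀ : ℝ, 2 ≤ T₀ ∧ ∀ (T : ℝ) (R : ℝ → ℝ), T₀ ≤ T →
  ContinuousOn R (Set.Icc T (3 * T)) → c * T ^ (-(1 / 2 : ℝ)) ≤ ∫ v in T..(2 * T), (R v) ^ 2 →
  ∫ v in T..(3 * T), (R v) ^ 4 ≤ T ^ (ε - 2) →
  ∫ v in T..(2 * T), (∫ u in v..(v + T ^ (2 * ε)), R u) ^ 2 ≤ C * T ^ (2 * ε) * T ^ (-(1 / 2 : ℝ)) →
  ∃ S : Finset ℝ, (∀ x ∈ S, T ≤ x ∧ x ≤ 3 * T ∧ R x = 0) ∧ T ^ (1 - 4 * ε) ≤ (S.card : ℝ)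

/-- (RZ) the result -/
def S_RZ : Prop := ∀ b ε : ℝ, 0 < b → 0 < ε → ∃ R₀ : ℝ, 1 ≤ R₀ ∧ ∀ R : ℝ, R₀ ≤ R → ∃ S : Finset ℝ,
  (∀ x ∈ S, 0 ≤ x ∧ x ≤ R ∧ J4H2.DN.Hd (-b) x = 0) ∧ R ^ (1 - ε) ≤ (S.card : ℝ)

/-- (FIN) `a = b/4`, `x = 2v`, `T = R/6` -/
def S_FIN : Prop := S_REP → S_RE → S_R1 → S_R2 → S_R3 → S_ABS → S_RZ

end

end Pool.Agent.J4H5.RZ
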